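import Pool.Agent.N681.PC.SZ
import Pool.Agent.N753.DR.Stm6
import Pool.Agent.N752.CV.ZeroC
import Pool.Agent.H437R2.Man.LowPrimes

/-!
# PC/MOD: congruence conditions in boxes
-/

set_option autoImplicit false

open NumberField IsDedekindDomain Module
open Pool.Agent.N753.DR
open Pool.Agent.H437R2.Man.Low (below below_data card_above)

namespace Pool.Agent.N681.PC

variable {K : Type} [Field K] [NumberField K]

theorem below_eq {v : HeightOneSpectrum (𝓞 K)} {p : ℕ} (hp : p.Prime)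
    (h : ((p : ℕ) : 𝓞 K) ∈ v.asIdeal) : below v = p := by
  obtain ⟨h1, -, h3⟩ := below_data v
  by_contra hne
  have hco : Nat.Coprime (below v) p := (Nat.coprime_primes h1 hp).2 hne
  have h4 : IsCoprime ((below v : ℕ) : ℤ) ((p : ℕ) : ℤ) := Nat.isCoprime_iff_coprime.2 hco
  obtain ⟨a, b, hab⟩ := h4
  have h5 : (1 : 𝓞 K) = (a : 𝓞 K) * ((below v : ℕ) : 𝓞 K) + (b : 𝓞 K) * ((p : ℕ) : 𝓞 K) := by
    have := congrArg (fun z : ℤ => (z : 𝓞 K)) hab
    push_cast at this
    exact this.symm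
  apply v.isPrime.ne_top
  rw [Ideal.eq_top_iff_one, h5]
  exact add_mem (v.asIdeal.mul_mem_left _ h3) (v.asIdeal.mul_mem_left _ h)

/-- the index set of the integral basis -/
abbrev Ix (K : Type) [Field K] [NumberField K] := Module.Free.ChooseBasisIndex ℤ (𝓞 K)

theorem card_Ix : Fintype.card (Ix K) = finrank ℚ K := by
  rw [← RingOfIntegers.rank K]
  exact (Module.finrank_eq_card_chooseBasisIndex ℤ (𝓞 K)).symm

/-- the algebraic integer with the given coordinates -/
noncomputable def of (u : Ix K → ℤ) : 𝓞 K := ∑ i, u i • RingOfIntegers.basis K i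

theorem of_repr (z : 𝓞 K) : of (fun i => (RingOfIntegers.basis K).repr z i) = z :=
  (RingOfIntegers.basis K).sum_repr z

theorem of_sub (u w : Ix K → ℤ) : of u - of w = of (fun i => u i - w i) := by
  unfold of
  rw [← Finset.sum_sub_distrib]
  exact Finset.sum_congr rfl fun i _ => (sub_smul _ _ _).symm

theorem int_mem (v : HeightOneSpectrum (𝓞 K)) {p : ℕ} (hp : p.Prime)
    (hv : ((p : ℕ) : 𝓞 K) ∈ v.asIdeal) {a : ℤ} (ha : (a : 𝓞 K) ∈ v.asIdeal) : (p : ℤ) ∣ a := by
  by_contra hd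
  have h1 : IsCoprime (p : ℤ) a := (Prime.coprime_iff_not_dvd (Nat.prime_iff_prime_int.1 hp)).2 hd
  obtain ⟨x, y, hxy⟩ := h1
  apply v.isPrime.ne_top
  rw [Ideal.eq_top_iff_one]
  have h2 : (1 : 𝓞 K) = (x : 𝓞 K) * ((p : ℕ) : 𝓞 K) + (y : 𝓞 K) * (a : 𝓞 K) := by
    have := congrArg (fun z : ℤ => (z : 𝓞 K)) hxy
    push_cast at this
    exact this.symm
  rw [h2]
  exact add_mem (v.asIdeal.mul_mem_left _ hv) (v.asIdeal.mul_mem_left _ ha)

theorem exists_basis_not_mem (v : HeightOneSpectrum (𝓞 K)) :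
    ∃ l, RingOfIntegers.basis K l ∉ v.asIdeal := by
  by_contra h
  push Not at h
  apply v.isPrime.ne_top
  rw [Ideal.eq_top_iff_one, ← of_repr (1 : 𝓞 K)]
  unfold of
  refine sum_mem fun i _ => ?_
  rw [zsmul_eq_mul]
  exact v.asIdeal.mul_mem_left _ (h i)

open Classical in
/-- the fibres of the reduction modulo `v` -/
theorem fibre (v : HeightOneSpectrum (𝓞 K)) {p : ℕ} (hp : p.Prime)
    (hv : ((p : ℕ) : 𝓞 K) ∈ v.asIdeal) (I : Finset ℤ) (k : ℕ)
    (hk : ∀ t₀ : ℤ, (I.filter fun t => (p : ℤ) ∣ t - t₀).card ≤ k) (y : 𝓞 K ⧸ v.asIdeal) :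
    ((Fintype.piFinset fun _ : Ix K => I).filter
      fun u => Ideal.Quotient.mk v.asIdeal (of u) = y).card ≤ k * I.card ^ (finrank ℚ K - 1) := by
  obtain ⟨l, hl⟩ := exists_basis_not_mem v
  set T := (Fintype.piFinset fun _ : Ix K => I).filter
      fun u => Ideal.Quotient.mk v.asIdeal (of u) = y with hT
  let f : (Ix K → ℤ) → ({i : Ix K // i ≠ l} → ℤ) := fun u i => u i
  have h1 : T.card ≤ k * (T.image f).card := by
    refine Finset.card_le_mul_card_image _ k fun w hw => ?_
    obtain ⟨u₀, hu₀, hu₀w⟩ := Finset.mem_image.1 hw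
    refine (Finset.card_le_card_of_injOn (fun u => u l) (t := I.filter fun t => (p : ℤ) ∣ t - u₀ l)
      ?_ ?_).trans (hk (u₀ l))
    · intro u hu
      rw [Finset.mem_coe, Finset.mem_filter] at hu
      obtain ⟨hu1, hu2⟩ := hu
      obtain ⟨hu3, hu4⟩ := Finset.mem_filter.1 hu1
      obtain ⟨-, hu5⟩ := Finset.mem_filter.1 hu₀
      rw [Finset.mem_coe, Finset.mem_filter]
      refine ⟨Fintype.mem_piFinset.1 hu3 l, ?_⟩
      apply int_mem v hp hv
      have h2 : of u - of u₀ ∈ v.asIdeal := by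
        rw [← Ideal.Quotient.eq, hu4, hu5]
      have h3 : of u - of u₀ = ((u l - u₀ l : ℤ) : 𝓞 K) * RingOfIntegers.basis K l := by
        rw [of_sub]
        unfold of
        rw [Finset.sum_eq_single l]
        · rw [zsmul_eq_mul]
        · intro i _ hi
          have h4 : f u ⟨i, hi⟩ = f u₀ ⟨i, hi⟩ := by rw [hu2, hu₀w]
          have h5 : u i = u₀ i := h4
          change (u i - u₀ i) • _ = _
          rw [h5, sub_self, zero_smul]
        · intro h; exact absurd (Finset.mem_univ l) h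
      rw [h3] at h2
      exact (v.isPrime.mem_or_mem h2).resolve_right hl
    · intro u hu u' hu' huu
      rw [Finset.mem_coe, Finset.mem_filter] at hu hu'
      funext i
      by_cases hi : i = l
      · rw [hi]; exact huu
      · have h4 : f u ⟨i, hi⟩ = f u' ⟨i, hi⟩ := by rw [hu.2, hu'.2]
        exact h4
  have h2 : (T.image f).card ≤ I.card ^ (finrank ℚ K - 1) := by
    have h3 : T.image f ⊆ Fintype.piFinset fun _ : {i : Ix K // i ≠ l} => I := by
      intro w hw
      obtain ⟨u, hu, rfl⟩ := Finset.mem_image.1 hw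
      rw [Fintype.mem_piFinset]
      intro i
      exact Fintype.mem_piFinset.1 (Finset.mem_filter.1 hu).1 i
    refine (Finset.card_le_card h3).trans (le_of_eq ?_)
    rw [Fintype.card_piFinset, Finset.prod_const, Finset.card_univ]
    congr 1
    rw [Fintype.card_subtype_compl, Fintype.card_subtype_eq, card_Ix]
  exact h1.trans (Nat.mul_le_mul_left _ h2)

/-- the vector of algebraic integers -/
noncomputable def vec {n : ℕ} (u : Fin n → Ix K → ℤ) (j : Fin n) : 𝓞 K := of (u j)

theorem eval_mem_iff {n : ℕ} (G : MvPolynomial (Fin n) (𝓞 K)) (I : Ideal (𝓞 K))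
    (c : Fin n → 𝓞 K) : MvPolynomial.eval (fun j => Ideal.Quotient.mk I (c j))
      (MvPolynomial.map (Ideal.Quotient.mk I) G) = Ideal.Quotient.mk I (MvPolynomial.eval c G) := by
  induction G using MvPolynomial.induction_on with
  | C a => simp
  | add P Q hP hQ => simp only [map_add, hP, hQ]
  | mul_X P i hP => simp only [map_mul, hP, MvPolynomial.map_X, MvPolynomial.eval_X]

open Classical in
theorem count_v {n : ℕ} (G : MvPolynomial (Fin n) (𝓞 K)) (v : HeightOneSpectrum (𝓞 K)) {p : ℕ}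
    (hp : p.Prime) (hv : ((p : ℕ) : 𝓞 K) ∈ v.asIdeal)
    (hG : MvPolynomial.map (Ideal.Quotient.mk v.asIdeal) G ≠ 0) (I : Finset ℤ) (k : ℕ)
    (hk : ∀ t₀ : ℤ, (I.filter fun t => (p : ℤ) ∣ t - t₀).card ≤ k) :
    ((Fintype.piFinset fun _ : Fin n => Fintype.piFinset fun _ : Ix K => I).filter
      fun u => MvPolynomial.eval (vec u) G ∈ v.asIdeal).card * I.card ^ finrank ℚ K ≤
      G.totalDegree * (k * I.card ^ (finrank ℚ K - 1)) * (I.card ^ finrank ℚ K) ^ n := by
  have hmax : v.asIdeal.IsMaximal := v.isMaximal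
  letI : Field (𝓞 K ⧸ v.asIdeal) := Ideal.Quotient.field v.asIdeal
  have h1 := zippel (Fintype.piFinset fun _ : Ix K => I)
    (fun u => Ideal.Quotient.mk v.asIdeal (of u)) (k * I.card ^ (finrank ℚ K - 1))
    (fun y => fibre v hp hv I k hk y) n _ hG
  have h2 : (Fintype.piFinset fun _ : Ix K => I).card = I.card ^ finrank ℚ K := by
    rw [Fintype.card_piFinset, Finset.prod_const, Finset.card_univ, card_Ix]
  rw [h2] at h1
  have h3 : ((Fintype.piFinset fun _ : Fin n => Fintype.piFinset fun _ : Ix K => I).filter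
      fun u => MvPolynomial.eval (vec u) G ∈ v.asIdeal) =
      ((Fintype.piFinset fun _ : Fin n => Fintype.piFinset fun _ : Ix K => I).filter
      fun c => MvPolynomial.eval (fun i => Ideal.Quotient.mk v.asIdeal (of (c i)))
        (MvPolynomial.map (Ideal.Quotient.mk v.asIdeal) G) = 0) := by
    refine Finset.filter_congr fun u _ => ?_
    rw [show (fun i => Ideal.Quotient.mk v.asIdeal (of (u i))) =
      fun i => Ideal.Quotient.mk v.asIdeal (vec u i) from rfl, eval_mem_iff,
      Ideal.Quotient.eq_zero_iff_mem]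
  rw [h3]
  refine h1.trans ?_
  gcongr
  exact Finset.sup_mono (MvPolynomial.support_map_subset _ _)

open Classical in
theorem count_p {n : ℕ} (hn : 1 ≤ n) (G : MvPolynomial (Fin n) (𝓞 K)) {p : ℕ} (hp : p.Prime)
    (hG : ∀ v : HeightOneSpectrum (𝓞 K), ((p : ℕ) : 𝓞 K) ∈ v.asIdeal →
      MvPolynomial.map (Ideal.Quotient.mk v.asIdeal) G ≠ 0) (I : Finset ℤ) (hI : 0 < I.card) (k : ℕ)
    (hk : ∀ t₀ : ℤ, (I.filter fun t => (p : ℤ) ∣ t - t₀).card ≤ k) :
    ((Fintype.piFinset fun _ : Fin n => Fintype.piFinset fun _ : Ix K => I).filter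
      fun u => Meet G (vec u) p).card ≤
      finrank ℚ K * G.totalDegree * k * I.card ^ (finrank ℚ K * n - 1) := by
  have hd : 0 < finrank ℚ K := finrank_pos
  have hfin : {v : HeightOneSpectrum (𝓞 K) | ((p : ℕ) : 𝓞 K) ∈ v.asIdeal}.Finite := by
    by_contra hinf
    obtain ⟨S, hS, hSc⟩ := Set.Infinite.exists_subset_card_eq hinf (finrank ℚ K + 1)
    have := card_above p S fun v hv => below_eq hp (hS hv)
    omega
  set V := hfin.toFinset with hV
  have hVc : V.card ≤ finrank ℚ K := card_above p V fun v hv => below_eq hp (by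
    have := (Set.Finite.mem_toFinset hfin).1 hv
    exact this)
  set B := (Fintype.piFinset fun _ : Fin n => Fintype.piFinset fun _ : Ix K => I) with hB
  have h1 : (B.filter fun u => Meet G (vec u) p) ⊆
      V.biUnion fun v => B.filter fun u => MvPolynomial.eval (vec u) G ∈ v.asIdeal := by
    intro u hu
    obtain ⟨h1, v, h2, h3⟩ := Finset.mem_filter.1 hu
    rw [Finset.mem_biUnion]
    exact ⟨v, (Set.Finite.mem_toFinset hfin).2 h2, Finset.mem_filter.2 ⟨h1, h3⟩⟩
  have h2 : (B.filter fun u => Meet G (vec u) p).card ≤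
      ∑ v ∈ V, (B.filter fun u => MvPolynomial.eval (vec u) G ∈ v.asIdeal).card :=
    (Finset.card_le_card h1).trans Finset.card_biUnion_le
  have h3 : (B.filter fun u => Meet G (vec u) p).card * I.card ^ finrank ℚ K ≤
      (finrank ℚ K * G.totalDegree * k * I.card ^ (finrank ℚ K * n - 1)) *
        I.card ^ finrank ℚ K := by
    calc _ ≤ (∑ v ∈ V, (B.filter fun u => MvPolynomial.eval (vec u) G ∈ v.asIdeal).card) *
          I.card ^ finrank ℚ K := Nat.mul_le_mul_right _ h2
      _ = ∑ v ∈ V, (B.filter fun u => MvPolynomial.eval (vec u) G ∈ v.asIdeal).card *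
          I.card ^ finrank ℚ K := by rw [Finset.sum_mul]
      _ ≤ ∑ _v ∈ V, G.totalDegree * (k * I.card ^ (finrank ℚ K - 1)) *
          (I.card ^ finrank ℚ K) ^ n := by
        refine Finset.sum_le_sum fun v hv => ?_
        have hpv := (Set.Finite.mem_toFinset hfin).1 hv
        exact count_v G v hp hpv (hG v hpv) I k hk
      _ = V.card * (G.totalDegree * (k * I.card ^ (finrank ℚ K - 1)) *
          (I.card ^ finrank ℚ K) ^ n) := by rw [Finset.sum_const, smul_eq_mul]
      _ ≤ finrank ℚ K * (G.totalDegree * (k * I.card ^ (finrank ℚ K - 1)) *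
          (I.card ^ finrank ℚ K) ^ n) := Nat.mul_le_mul_right _ hVc
      _ = _ := by
        have e1 : I.card ^ (finrank ℚ K - 1) * (I.card ^ finrank ℚ K) ^ n =
            I.card ^ (finrank ℚ K * n - 1) * I.card ^ finrank ℚ K := by
          rw [← pow_mul, ← pow_add, ← pow_add]
          congr 1
          have : 1 ≤ finrank ℚ K * n := Nat.mul_pos hd hn
          omega
        calc _ = finrank ℚ K * G.totalDegree * k *
              (I.card ^ (finrank ℚ K - 1) * (I.card ^ finrank ℚ K) ^ n) := by ring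
          _ = _ := by rw [e1]; ring
  exact Nat.le_of_mul_le_mul_right h3 (pow_pos hI _)

theorem nonzero_mod {n : ℕ} (G : MvPolynomial (Fin n) (𝓞 K)) (hG : G ≠ 0) :
    ∃ P₀ : ℕ, ∀ p : ℕ, p.Prime → P₀ ≤ p → ∀ v : HeightOneSpectrum (𝓞 K),
      ((p : ℕ) : 𝓞 K) ∈ v.asIdeal → MvPolynomial.map (Ideal.Quotient.mk v.asIdeal) G ≠ 0 := by
  obtain ⟨s, hs⟩ := MvPolynomial.ne_zero_iff.1 hG
  set g := G.coeff s with hg
  refine ⟨(Algebra.norm ℤ g).natAbs + 1, fun p hp hpP v hv h0 => ?_⟩
  have h1 : g ∈ v.asIdeal := by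
    have := congrArg (MvPolynomial.coeff s) h0
    rw [MvPolynomial.coeff_map, MvPolynomial.coeff_zero, Ideal.Quotient.eq_zero_iff_mem] at this
    exact this
  have h2 : (Ideal.absNorm (Ideal.span {g}) : 𝓞 K) ∈ Ideal.span {g} := Ideal.absNorm_mem _
  have h3 : Ideal.span {g} ≤ v.asIdeal := (Ideal.span_singleton_le_iff_mem _).2 h1
  have h4 : (((Algebra.norm ℤ g).natAbs : ℕ) : 𝓞 K) ∈ v.asIdeal := by
    have := h3 h2
    rwa [Ideal.absNorm_span_singleton] at this
  have h5 : (Algebra.norm ℤ g).natAbs ≠ 0 := by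
    rw [Ne, Int.natAbs_eq_zero, Algebra.norm_eq_zero_iff]
    exact hs
  have h6 : (p : ℤ) ∣ (((Algebra.norm ℤ g).natAbs : ℕ) : ℤ) := by
    apply int_mem v hp hv
    rw [Int.cast_natCast]
    exact h4
  have h7 : p ∣ (Algebra.norm ℤ g).natAbs := by exact_mod_cast h6
  have h8 := Nat.le_of_dvd (Nat.pos_of_ne_zero h5) h7
  omega

theorem class_card (X m : ℕ) (hm : 1 ≤ m) (t₀ : ℤ) :
    ((Finset.Icc (-(X : ℤ)) X).filter fun t => (m : ℤ) ∣ t - t₀).card ≤ 2 * X / m + 1 := by
  have hm' : (0 : ℤ) < m := by exact_mod_cast hm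
  rw [← Finset.card_range (2 * X / m + 1)]
  refine Finset.card_le_card_of_injOn (fun t => ((t + X) / m).toNat) ?_ ?_
  · intro t ht
    rw [Finset.mem_coe, Finset.mem_filter, Finset.mem_Icc] at ht
    rw [Finset.mem_coe, Finset.mem_range]
    have h1 : (t + X) / (m : ℤ) ≤ (2 * X : ℕ) / (m : ℤ) := by
      apply Int.ediv_le_ediv hm'
      push_cast
      omega
    have h2 : ((2 * X : ℕ) : ℤ) / (m : ℤ) = ((2 * X / m : ℕ) : ℤ) := by push_cast; rfl
    rw [h2] at h1
    exact Nat.lt_succ_of_le (Int.toNat_le.2 h1)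
  · intro t ht t' ht' h
    rw [Finset.mem_coe, Finset.mem_filter, Finset.mem_Icc] at ht ht'
    have h1 : 0 ≤ (t + X) / (m : ℤ) := Int.ediv_nonneg (by omega) hm'.le
    have h2 : 0 ≤ (t' + X) / (m : ℤ) := Int.ediv_nonneg (by omega) hm'.le
    have h3 : (t + X) / (m : ℤ) = (t' + X) / (m : ℤ) := by
      have h : ((t + X) / (m : ℤ)).toNat = ((t' + X) / (m : ℤ)).toNat := h
      omega
    have h4 : (m : ℤ) ∣ (t + X) - (t' + X) := by
      have := dvd_sub ht.2 ht'.2
      have e : t - t₀ - (t' - t₀) = (t + X) - (t' + X) := by ring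
      rwa [e] at this
    have h5 : (t' + X) % (m : ℤ) = (t + X) % (m : ℤ) := Int.modEq_iff_dvd.2 h4
    have h6 := Int.mul_ediv_add_emod (t + X) m
    have h7 := Int.mul_ediv_add_emod (t' + X) m
    rw [h3, ← h5] at h6
    have : t + X = t' + X := h6.symm.trans h7
    omega

theorem class_card' (p : ℕ) (t₀ : ℤ) :
    ((Finset.Ico (0 : ℤ) p).filter fun t => (p : ℤ) ∣ t - t₀).card ≤ 1 := by
  rw [Finset.card_le_one]
  intro a ha b hb
  rw [Finset.mem_filter, Finset.mem_Ico] at ha hb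
  have h1 : (p : ℤ) ∣ a - b := by
    have := dvd_sub ha.2 hb.2
    have e : a - t₀ - (b - t₀) = a - b := by ring
    rwa [e] at this
  obtain ⟨q, hq⟩ := h1
  have h2 : |a - b| < p := by rw [abs_lt]; constructor <;> linarith
  have h3 : q = 0 := by
    by_contra hq0
    have : 1 ≤ |q| := Int.one_le_abs hq0
    rw [hq, abs_mul, abs_of_nonneg (by positivity : (0 : ℤ) ≤ (p : ℤ))] at h2
    nlinarith [Int.natCast_nonneg p]
  rw [h3, mul_zero] at hq
  linarith

/-- the box -/
noncomputable def BB (K : Type) [Field K] [NumberField K] (n X : ℕ) : Finset (Fin n → Ix K → ℤ) :=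
  Fintype.piFinset fun _ => Fintype.piFinset fun _ => Finset.Icc (-(X : ℤ)) X

open Classical in
theorem ncard_le {n X : ℕ} (P : (Fin n → 𝓞 K) → Prop) :
    {c ∈ Bx K n X | P c}.ncard ≤ ((BB K n X).filter fun u => P (vec u)).card := by
  rw [← Set.ncard_coe_finset]
  refine Set.ncard_le_ncard_of_injOn (fun c j i => (RingOfIntegers.basis K).repr (c j) i) ?_ ?_
    (Finset.finite_toSet _)
  · rintro c ⟨hc, hPc⟩
    have hvec : vec (fun j i => (RingOfIntegers.basis K).repr (c j) i) = c := by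
      funext j
      exact of_repr (c j)
    rw [Finset.mem_coe, Finset.mem_filter, hvec]
    refine ⟨?_, hPc⟩
    unfold BB
    rw [Fintype.mem_piFinset]
    intro j
    rw [Fintype.mem_piFinset]
    intro i
    have := Pool.Agent.N262.DR.sz_le_iff.mp (hc j) i
    rw [abs_le] at this
    rw [Finset.mem_Icc]
    exact this
  · intro c _ c' _ h
    funext j
    apply (RingOfIntegers.basis K).repr.injective
    ext i
    exact congrFun (congrFun h j) i

/-- the residues of the coordinates -/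
def red {n : ℕ} (p : ℕ) (u : Fin n → Ix K → ℤ) (j : Fin n) (i : Ix K) : ℤ := u j i % p

theorem meet_red {n : ℕ} (G : MvPolynomial (Fin n) (𝓞 K)) (p : ℕ) (u : Fin n → Ix K → ℤ)
    (h : Meet G (vec u) p) : Meet G (vec (red p u)) p := by
  obtain ⟨v, h1, h2⟩ := h
  refine ⟨v, h1, ?_⟩
  rw [← Ideal.Quotient.eq_zero_iff_mem, ← eval_mem_iff] at h2 ⊢
  have h3 : (fun j => Ideal.Quotient.mk v.asIdeal (vec (red p u) j)) =
      fun j => Ideal.Quotient.mk v.asIdeal (vec u j) := by
    funext j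
    rw [Ideal.Quotient.eq]
    unfold vec
    rw [of_sub]
    unfold of
    refine sum_mem fun i _ => ?_
    have h4 : red p u j i - u j i = -(u j i / p) * p := by
      unfold red
      have := Int.mul_ediv_add_emod (u j i) p
      linarith
    change (red p u j i - u j i) • _ ∈ _
    rw [h4, zsmul_eq_mul]
    push_cast
    apply v.asIdeal.mul_mem_right
    exact v.asIdeal.mul_mem_left _ h1
  rw [h3]
  exact h2

open Classical in
theorem count_Q {n : ℕ} (hn : 1 ≤ n) (G : MvPolynomial (Fin n) (𝓞 K)) {P₀ : ℕ}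
    (hG : ∀ p : ℕ, p.Prime → P₀ ≤ p → ∀ v : HeightOneSpectrum (𝓞 K),
      ((p : ℕ) : 𝓞 K) ∈ v.asIdeal → MvPolynomial.map (Ideal.Quotient.mk v.asIdeal) G ≠ 0)
    (X : ℕ) (Q : Finset ℕ) (hQ : ∀ p ∈ Q, p.Prime ∧ P₀ ≤ p) :
    ((BB K n X).filter fun u => ∀ p ∈ Q, Meet G (vec u) p).card ≤
      (2 * X / (∏ p ∈ Q, p) + 1) ^ (finrank ℚ K * n) *
        ∏ p ∈ Q, (finrank ℚ K * G.totalDegree * p ^ (finrank ℚ K * n - 1)) := by
  set q := ∏ p ∈ Q, p with hq
  have hq1 : 1 ≤ q := Finset.prod_pos fun p hp => (hQ p hp).1.pos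
  set A := (BB K n X).filter fun u => ∀ p ∈ Q, Meet G (vec u) p with hA
  let W : ℕ → Finset (Fin n → Ix K → ℤ) := fun p =>
    (Fintype.piFinset fun _ : Fin n => Fintype.piFinset fun _ : Ix K => Finset.Ico (0 : ℤ) p).filter
      fun u => Meet G (vec u) p
  let Φ : (Fin n → Ix K → ℤ) → ({p // p ∈ Q} → Fin n → Ix K → ℤ) := fun u p => red p u
  have h1 : A.card ≤ (2 * X / q + 1) ^ (finrank ℚ K * n) * (A.image Φ).card := by
    refine Finset.card_le_mul_card_image _ _ fun φ hφ => ?_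
    obtain ⟨u₀, hu₀, hu₀φ⟩ := Finset.mem_image.1 hφ
    have h2 : (A.filter fun u => Φ u = φ) ⊆ Fintype.piFinset fun j : Fin n =>
        Fintype.piFinset fun i : Ix K =>
          (Finset.Icc (-(X : ℤ)) X).filter fun t => (q : ℤ) ∣ t - u₀ j i := by
      intro u hu
      obtain ⟨hu1, hu2⟩ := Finset.mem_filter.1 hu
      have hu3 := (Finset.mem_filter.1 hu1).1
      rw [Fintype.mem_piFinset]
      intro j
      rw [Fintype.mem_piFinset]
      intro i
      rw [Finset.mem_filter]
      refine ⟨Fintype.mem_piFinset.1 (Fintype.mem_piFinset.1 hu3 j) i, ?_⟩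
      rw [hq]
      push_cast
      refine Finset.prod_dvd_of_coprime (fun p hp p' hp' hne => ?_) fun p hp => ?_
      · exact Nat.isCoprime_iff_coprime.2
          ((Nat.coprime_primes (hQ p hp).1 (hQ p' hp').1).2 hne)
      · have h3 : Φ u ⟨p, hp⟩ = Φ u₀ ⟨p, hp⟩ := by rw [hu2, hu₀φ]
        have h4 : u j i % (p : ℤ) = u₀ j i % (p : ℤ) := congrFun (congrFun h3 j) i
        have h5 : u₀ j i ≡ u j i [ZMOD p] := h4.symm
        exact Int.modEq_iff_dvd.1 h5
    refine (Finset.card_le_card h2).trans ?_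
    rw [Fintype.card_piFinset]
    calc ∏ j : Fin n, (Fintype.piFinset fun i : Ix K =>
          (Finset.Icc (-(X : ℤ)) X).filter fun t => (q : ℤ) ∣ t - u₀ j i).card
        ≤ ∏ _j : Fin n, (2 * X / q + 1) ^ finrank ℚ K := by
          refine Finset.prod_le_prod' fun j _ => ?_
          rw [Fintype.card_piFinset]
          calc _ ≤ ∏ _i : Ix K, (2 * X / q + 1) :=
                Finset.prod_le_prod' fun i _ => class_card X q hq1 _
            _ = (2 * X / q + 1) ^ finrank ℚ K := by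
                rw [Finset.prod_const, Finset.card_univ, card_Ix]
      _ = (2 * X / q + 1) ^ (finrank ℚ K * n) := by
          rw [Finset.prod_const, Finset.card_univ, Fintype.card_fin, pow_mul]
  have h2 : (A.image Φ).card ≤
      ∏ p ∈ Q, (finrank ℚ K * G.totalDegree * p ^ (finrank ℚ K * n - 1)) := by
    have h3 : A.image Φ ⊆ Fintype.piFinset fun p : {p // p ∈ Q} => W p := by
      intro φ hφ
      obtain ⟨u, hu, rfl⟩ := Finset.mem_image.1 hφ
      obtain ⟨hu1, hu2⟩ := Finset.mem_filter.1 hu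
      rw [Fintype.mem_piFinset]
      intro p
      have hp0 : (0 : ℤ) < (p : ℕ) := by exact_mod_cast (hQ p p.2).1.pos
      rw [Finset.mem_filter]
      refine ⟨?_, meet_red G p u (hu2 p p.2)⟩
      rw [Fintype.mem_piFinset]
      intro j
      rw [Fintype.mem_piFinset]
      intro i
      rw [Finset.mem_Ico]
      exact ⟨Int.emod_nonneg _ hp0.ne', Int.emod_lt_of_pos _ hp0⟩
    refine (Finset.card_le_card h3).trans ?_
    rw [Fintype.card_piFinset, ← Finset.prod_coe_sort Q]
    refine Finset.prod_le_prod' fun p _ => ?_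
    have hpp := hQ p p.2
    have h4 := count_p hn G hpp.1 (hG p hpp.1 hpp.2) (Finset.Ico (0 : ℤ) (p : ℕ)) (by
      rw [Int.card_Ico]
      have := hpp.1.pos
      omega) 1 (class_card' p)
    rw [Int.card_Ico, mul_one] at h4
    have h5 : ((p : ℕ) - 0 : ℤ).toNat = (p : ℕ) := by omega
    rw [h5] at h4
    exact h4
  exact h1.trans (Nat.mul_le_mul_left _ h2)

theorem t : StmMod := by
  classical
  intro K _ _ n hn G hG
  obtain ⟨P₀, hP₀⟩ := nonzero_mod G hG
  have hd : 0 < finrank ℚ K := finrank_pos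
  set N := finrank ℚ K * n with hN
  have hN1 : 1 ≤ N := Nat.mul_pos hd hn
  set E := finrank ℚ K * G.totalDegree with hE
  have hNr : (finrank ℚ K : ℝ) * n = (N : ℝ) := by rw [hN]; push_cast; rfl
  refine ⟨3 ^ (N + 1) * (E + 1), P₀, ?_, ?_⟩
  · have h1 : (1 : ℝ) ≤ 3 ^ (N + 1) := one_le_pow₀ (by norm_num)
    have h2 : (0 : ℝ) ≤ E := Nat.cast_nonneg _
    nlinarith
  intro X hX
  have hXr : (1 : ℝ) ≤ X := by exact_mod_cast hX
  have hX0 : (0 : ℝ) < X := by linarith
  have hE0 : (0 : ℝ) ≤ E := Nat.cast_nonneg _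
  have hpow : (X : ℝ) ^ ((finrank ℚ K : ℝ) * n) = (X : ℝ) ^ N := by
    rw [hNr, Real.rpow_natCast]
  have hpow1 : (X : ℝ) ^ ((finrank ℚ K : ℝ) * n - 1) = (X : ℝ) ^ (N - 1) := by
    rw [hNr]
    have : ((N : ℝ) - 1) = ((N - 1 : ℕ) : ℝ) := by
      rw [Nat.cast_sub hN1]; norm_num
    rw [this, Real.rpow_natCast]
  have h3X : (2 * (X : ℝ) + 1) ≤ 3 * X := by linarith
  rw [hpow, hpow1]
  refine ⟨?_, ?_, ?_⟩
  · -- zeros
    have hG' : MvPolynomial.map (algebraMap (𝓞 K) K) G ≠ 0 := by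
      intro h0
      apply hG
      apply MvPolynomial.map_injective (algebraMap (𝓞 K) K) (RingOfIntegers.coe_injective (K := K))
      rw [h0, map_zero]
    have h1 := Pool.Agent.N752.CV.zeros_card (K := K) hn _ hG' X
    have h2 : {c ∈ Bx K n X | MvPolynomial.eval c G = 0} ⊆
        {c : Fin n → 𝓞 K | c ∈ Bx K n X ∧ MvPolynomial.eval (fun i => (c i : K))
          (MvPolynomial.map (algebraMap (𝓞 K) K) G) = 0} := by
      rintro c ⟨hc, hc0⟩
      refine ⟨hc, ?_⟩
      have h3 : MvPolynomial.eval (fun i => (c i : K))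
          (MvPolynomial.map (algebraMap (𝓞 K) K) G) = algebraMap (𝓞 K) K (MvPolynomial.eval c G) := by
        rw [MvPolynomial.eval_map]
        exact (MvPolynomial.eval₂_comp_left (algebraMap (𝓞 K) K) (RingHom.id _) c G).symm
      rw [h3, hc0, map_zero]
    have h3 : ({c ∈ Bx K n X | MvPolynomial.eval c G = 0}.ncard : ℝ) ≤
        ((MvPolynomial.map (algebraMap (𝓞 K) K) G).totalDegree *
          (2 * X + 1) ^ (finrank ℚ K * (n - 1)) : ℕ) := by
      exact_mod_cast (Set.ncard_le_ncard h2 ((Pool.Agent.N262.DR.Bx_finite n X).subset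
        fun c hc => hc.1)).trans h1
    refine h3.trans ?_
    have hD : ((MvPolynomial.map (algebraMap (𝓞 K) K) G).totalDegree : ℝ) ≤ E := by
      have h4 : (MvPolynomial.map (algebraMap (𝓞 K) K) G).totalDegree ≤ E :=
        (Finset.sup_mono (MvPolynomial.support_map_subset _ _)).trans
          (Nat.le_mul_of_pos_left _ hd)
      exact_mod_cast h4
    have hexp : finrank ℚ K * (n - 1) ≤ N - 1 := by
      rw [hN, Nat.mul_sub, mul_one]
      omega
    push_cast
    calc ((MvPolynomial.map (algebraMap (𝓞 K) K) G).totalDegree : ℝ) *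
          (2 * X + 1) ^ (finrank ℚ K * (n - 1))
        ≤ E * (3 * X) ^ (N - 1) := by
          refine mul_le_mul hD ?_ (by positivity) hE0
          calc (2 * (X : ℝ) + 1) ^ (finrank ℚ K * (n - 1)) ≤ (3 * X) ^ (finrank ℚ K * (n - 1)) :=
                pow_le_pow_left₀ (by positivity) h3X _
            _ ≤ (3 * X) ^ (N - 1) := pow_le_pow_right₀ (by linarith) hexp
      _ = (3 : ℝ) ^ (N - 1) * E * (X : ℝ) ^ (N - 1) := by rw [mul_pow]; ring
      _ ≤ 3 ^ (N + 1) * (E + 1) * (X : ℝ) ^ (N - 1) := by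
          refine mul_le_mul_of_nonneg_right ?_ (by positivity)
          refine mul_le_mul ?_ (by linarith) hE0 (by positivity)
          exact pow_le_pow_right₀ (by norm_num) (by omega)
  · -- one prime
    intro p hp hpP
    have h1 := ncard_le (K := K) (n := n) (X := X) fun c => Meet G c p
    have h2 := count_p hn G hp (hP₀ p hp hpP) (Finset.Icc (-(X : ℤ)) X) (by
      rw [Int.card_Icc]; omega) (2 * X / p + 1) (class_card X p hp.pos)
    have h3 : ((X : ℤ) + 1 - -(X : ℤ)).toNat = 2 * X + 1 := by omega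
    rw [Int.card_Icc, h3] at h2
    have h4 : ({c ∈ Bx K n X | Meet G c p}.ncard : ℝ) ≤
        ((E * (2 * X / p + 1) * (2 * X + 1) ^ (N - 1) : ℕ) : ℝ) := by
      exact_mod_cast h1.trans h2
    have hp0 : (0 : ℝ) < p := by exact_mod_cast hp.pos
    have h5 : ((2 * X / p : ℕ) : ℝ) ≤ 2 * X / p := by
      have := @Nat.cast_div_le ℝ _ _ _ (2 * X) p
      push_cast at this ⊢
      exact this
    refine h4.trans ?_
    push_cast
    calc (E : ℝ) * ((2 * X / p : ℕ) + 1) * (2 * X + 1) ^ (N - 1)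
        ≤ E * (2 * X * (1 / p + 1 / X)) * (3 * X) ^ (N - 1) := by
          refine mul_le_mul (mul_le_mul_of_nonneg_left ?_ hE0)
            (pow_le_pow_left₀ (by positivity) h3X _) (by positivity) (by positivity)
          have e : 2 * (X : ℝ) * (1 / p + 1 / X) = 2 * X / p + 2 := by field_simp
          rw [e]; linarith
      _ = (2 * 3 ^ (N - 1)) * E * (X * (X : ℝ) ^ (N - 1)) * (1 / p + 1 / X) := by
          rw [mul_pow]; ring
      _ = (2 * 3 ^ (N - 1)) * E * (X : ℝ) ^ N * (1 / p + 1 / X) := by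
          rw [← pow_succ', Nat.sub_add_cancel hN1]
      _ ≤ 3 ^ (N + 1) * (E + 1) * (X : ℝ) ^ N * (1 / p + 1 / X) := by
          refine mul_le_mul_of_nonneg_right (mul_le_mul_of_nonneg_right ?_ (by positivity))
            (by positivity)
          refine mul_le_mul ?_ (by linarith) hE0 (by positivity)
          have e : (3 : ℝ) ^ (N + 1) = 9 * 3 ^ (N - 1) := by
            have : N + 1 = (N - 1) + 2 := by omega
            rw [this, pow_add]; ring
          rw [e]
          have : (0 : ℝ) < 3 ^ (N - 1) := by positivity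
          linarith
  · -- many primes
    intro Q hQ hQX
    set q := ∏ p ∈ Q, p with hq
    have hq1 : 1 ≤ q := Finset.prod_pos fun p hp => (hQ p hp).1.pos
    have hq0 : (0 : ℝ) < q := by exact_mod_cast hq1
    have h1 := ncard_le (K := K) (n := n) (X := X) fun c => ∀ p ∈ Q, Meet G c p
    have h2 := count_Q hn G hP₀ X Q hQ
    have h3 : {c ∈ Bx K n X | ∀ p ∈ Q, Meet G c p}.ncard ≤
        (2 * X / q + 1) ^ N * ∏ p ∈ Q, (E * p ^ (N - 1)) := by
      refine h1.trans (le_trans (le_of_eq ?_) h2)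
      congr
    have h4 : ({c ∈ Bx K n X | ∀ p ∈ Q, Meet G c p}.ncard : ℝ) ≤
        (((2 * X / q + 1) ^ N * ∏ p ∈ Q, (E * p ^ (N - 1)) : ℕ) : ℝ) := by
      exact_mod_cast h3
    have h5 : ((2 * X / q : ℕ) : ℝ) ≤ 2 * X / q := by
      have := @Nat.cast_div_le ℝ _ _ _ (2 * X) q
      push_cast at this ⊢
      exact this
    have hqr : ∏ p ∈ Q, (p : ℝ) = (q : ℝ) := by rw [hq]; push_cast; rfl
    have hqX : (q : ℝ) ≤ X := by exact_mod_cast hQX
    refine h4.trans ?_
    rw [hqr]
    push_cast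
    rw [Finset.prod_mul_distrib, Finset.prod_const, Finset.prod_pow, hqr]
    have h6 : ((2 * X / q : ℕ) : ℝ) + 1 ≤ 3 * X / q := by
      have : 1 ≤ (X : ℝ) / q := (one_le_div hq0).2 hqX
      have e : 3 * (X : ℝ) / q = 2 * X / q + X / q := by ring
      rw [e]; linarith
    calc (((2 * X / q : ℕ) : ℝ) + 1) ^ N * ((E : ℝ) ^ Q.card * (q : ℝ) ^ (N - 1))
        ≤ (3 * X / q) ^ N * ((E : ℝ) ^ Q.card * (q : ℝ) ^ (N - 1)) :=
          mul_le_mul_of_nonneg_right (pow_le_pow_left₀ (by positivity) h6 _) (by positivity)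
      _ = (3 ^ N * (E : ℝ) ^ Q.card) * (X : ℝ) ^ N / q := by
          have e : (q : ℝ) ^ N = q ^ (N - 1) * q := by
            rw [← pow_succ, Nat.sub_add_cancel hN1]
          rw [div_pow, mul_pow, e]
          field_simp
      _ ≤ (3 ^ (N + 1) * (E + 1)) ^ (Q.card + 1) * (X : ℝ) ^ N / q := by
          refine div_le_div_of_nonneg_right (mul_le_mul_of_nonneg_right ?_ (by positivity)) hq0.le
          rw [pow_succ']
          have hb : (1 : ℝ) ≤ 3 ^ (N + 1) := one_le_pow₀ (by norm_num)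
          refine mul_le_mul ?_ (pow_le_pow_left₀ hE0 ?_ _) (by positivity) (by positivity)
          · calc (3 : ℝ) ^ N ≤ 3 ^ (N + 1) := pow_le_pow_right₀ (by norm_num) (by omega)
              _ ≤ 3 ^ (N + 1) * (E + 1) := by nlinarith
          · nlinarith

end Pool.Agent.N681.PC
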