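import Mathlib

/-!
# The lemma of Schwartz and Zippel for maps with bounded fibres
-/

set_option autoImplicit false

open MvPolynomial

namespace Pool.Agent.N681.PC

/-- the lemma of Schwartz and Zippel for a map `τ : S → F` with fibres of at most `s` elements -/
theorem zippel {F α : Type} [Field F] [DecidableEq F] (S : Finset α) (τ : α → F) (s : ℕ)
    (hs : ∀ y : F, (S.filter fun a => τ a = y).card ≤ s) :
    ∀ (n : ℕ) (H : MvPolynomial (Fin n) F), H ≠ 0 →
      ((Fintype.piFinset fun _ : Fin n => S).filter
        (fun c => eval (fun i => τ (c i)) H = 0)).card * S.card ≤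
        H.totalDegree * s * S.card ^ n := by
  classical
  intro n
  induction n with
  | zero =>
    intro H hH
    have h1 : ((Fintype.piFinset fun _ : Fin 0 => S).filter
        (fun c => eval (fun i => τ (c i)) H = 0)) = ∅ := by
      rw [Finset.filter_eq_empty_iff]
      intro c _ hc
      rw [eq_C_of_isEmpty H, eval_C] at hc
      apply hH
      rw [eq_C_of_isEmpty H, hc, C_0]
    rw [h1, Finset.card_empty, zero_mul]
    exact Nat.zero_le _
  | succ n ih =>
    intro H hH
    set P := finSuccEquiv F n H with hP
    have hP0 : P ≠ 0 := by
      rw [hP, Ne, map_eq_zero_iff _ (finSuccEquiv F n).injective]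
      exact hH
    set i := P.natDegree with hi
    have hlc : P.coeff i ≠ 0 := by
      rw [hi]
      exact Polynomial.leadingCoeff_ne_zero.2 hP0
    have hdeg : (P.coeff i).totalDegree + i ≤ H.totalDegree :=
      totalDegree_coeff_finSuccEquiv_add_le H i hlc
    set Z := (Fintype.piFinset fun _ : Fin (n + 1) => S).filter
        (fun c => eval (fun i => τ (c i)) H = 0) with hZ
    set Z' := (Fintype.piFinset fun _ : Fin n => S).filter
        (fun c => eval (fun i => τ (c i)) (P.coeff i) = 0) with hZ'
    have hmap : ∀ c ∈ Z, Fin.tail c ∈ Fintype.piFinset fun _ : Fin n => S := by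
      intro c hc
      rw [Fintype.mem_piFinset]
      intro j
      exact (Fintype.mem_piFinset.1 (Finset.mem_filter.1 hc).1) j.succ
    have hcard := Finset.card_eq_sum_card_fiberwise (f := fun c : Fin (n + 1) → α => Fin.tail c)
      (s := Z) (t := Fintype.piFinset fun _ : Fin n => S) hmap
    have heval : ∀ (c : Fin (n + 1) → α), eval (fun i => τ (c i)) H =
        Polynomial.eval (τ (c 0)) (P.map (eval fun i => τ (Fin.tail c i))) := by
      intro c
      rw [hP, ← eval_eq_eval_mv_eval']
      congr 1
      congr 1
      funext j
      refine Fin.cases ?_ (fun k => ?_) j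
      · rw [Fin.cons_zero]
      · rw [Fin.cons_succ]; rfl
    have hfib : ∀ u ∈ Fintype.piFinset fun _ : Fin n => S,
        (Z.filter fun c => Fin.tail c = u).card ≤
          (if u ∈ Z' then S.card else 0) + i * s := by
      intro u hu
      have hinj : (Z.filter fun c => Fin.tail c = u).card ≤
          (S.filter fun a => Polynomial.eval (τ a) (P.map (eval fun i => τ (u i))) = 0).card := by
        refine Finset.card_le_card_of_injOn (fun c => c 0) ?_ ?_
        · intro c hc
          rw [Finset.mem_coe, Finset.mem_filter] at hc
          obtain ⟨h1, h2⟩ := hc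
          obtain ⟨h3, h4⟩ := Finset.mem_filter.1 h1
          rw [Finset.mem_coe, Finset.mem_filter]
          refine ⟨Fintype.mem_piFinset.1 h3 0, ?_⟩
          rw [heval, h2] at h4
          exact h4
        · intro c hc c' hc' h
          rw [Finset.mem_coe, Finset.mem_filter] at hc hc'
          rw [← Fin.cons_self_tail c, ← Fin.cons_self_tail c', hc.2, hc'.2]
          have h' : c 0 = c' 0 := h
          rw [h']
      refine hinj.trans ?_
      by_cases hu' : u ∈ Z'
      · rw [if_pos hu']
        exact (Finset.card_filter_le _ _).trans (Nat.le_add_right _ _)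
      · rw [if_neg hu', zero_add]
        have hne : P.map (eval fun i => τ (u i)) ≠ 0 := by
          intro h0
          apply hu'
          rw [hZ', Finset.mem_filter]
          refine ⟨hu, ?_⟩
          have := congrArg (fun p => Polynomial.coeff p i) h0
          simpa [Polynomial.coeff_map] using this
        have h1 : (S.filter fun a =>
            Polynomial.eval (τ a) (P.map (eval fun i => τ (u i))) = 0).card ≤
            s * ((S.filter fun a =>
              Polynomial.eval (τ a) (P.map (eval fun i => τ (u i))) = 0).image τ).card := by
          refine Finset.card_le_mul_card_image _ s fun y _ => ?_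
          refine (Finset.card_le_card ?_).trans (hs y)
          intro a ha
          rw [Finset.mem_filter] at ha ⊢
          exact ⟨(Finset.mem_filter.1 ha.1).1, ha.2⟩
        have h2 : ((S.filter fun a =>
              Polynomial.eval (τ a) (P.map (eval fun i => τ (u i))) = 0).image τ).card ≤ i := by
          refine (Finset.card_le_card (t := (P.map (eval fun i => τ (u i))).roots.toFinset) ?_).trans ?_
          · intro y hy
            obtain ⟨a, ha, rfl⟩ := Finset.mem_image.1 hy
            rw [Multiset.mem_toFinset, Polynomial.mem_roots hne]
            exact (Finset.mem_filter.1 ha).2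
          · refine (Multiset.toFinset_card_le _).trans ((Polynomial.card_roots' _).trans ?_)
            exact Polynomial.natDegree_map_le
        calc _ ≤ s * _ := h1
          _ ≤ s * i := Nat.mul_le_mul_left _ h2
          _ = i * s := mul_comm _ _
    have hsum : Z.card ≤ Z'.card * S.card + S.card ^ n * (i * s) := by
      rw [hcard]
      refine (Finset.sum_le_sum hfib).trans ?_
      rw [Finset.sum_add_distrib, Finset.sum_const, Fintype.card_piFinset_const, smul_eq_mul,
        Finset.sum_ite_mem]
      have h3 : (Fintype.piFinset fun _ : Fin n => S) ∩ Z' = Z' := by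
        rw [Finset.inter_eq_right]
        exact Finset.filter_subset _ _
      rw [h3, Finset.sum_const, smul_eq_mul]
    have h4 := ih (P.coeff i) hlc
    calc Z.card * S.card ≤ (Z'.card * S.card + S.card ^ n * (i * s)) * S.card :=
          Nat.mul_le_mul_right _ hsum
      _ = (Z'.card * S.card) * S.card + S.card ^ (n + 1) * (i * s) := by ring
      _ ≤ ((P.coeff i).totalDegree * s * S.card ^ n) * S.card + S.card ^ (n + 1) * (i * s) :=
          Nat.add_le_add_right (Nat.mul_le_mul_right _ h4) _
      _ = ((P.coeff i).totalDegree + i) * s * S.card ^ (n + 1) := by ring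
      _ ≤ H.totalDegree * s * S.card ^ (n + 1) :=
          Nat.mul_le_mul_right _ (Nat.mul_le_mul_right _ hdeg)

end Pool.Agent.N681.PC
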